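import Pool.Agent.Helper61.LN.Goals

/-!
# Packet LN-T2 (MP_c65973_gt)

An explicit isotopy of the boundary of a disk with two bands to the closure of three negative
crossings (one strand is left open). The isotopy is a list of elementary moves, which is checked by
the kernel.
-/

set_option autoImplicit false

namespace Pool.Agent.Helper75.LN.T2

open Pool.Agent.Helper31.Sk Pool.Agent.Helper61.LN

/-- Names of the elementary isotopies. -/
inductive Mv : Type
  | comm (i j : ℕ) (g h : Gen)
  | zig (i : ℕ)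
  | zag (i : ℕ)
  | capP (i : ℕ)
  | capN (i : ℕ)
  | cupP (i : ℕ)
  | cupN (i : ℕ)
  | r1cupP (i : ℕ)
  | r1cupN (i : ℕ)
  | r1capP (i : ℕ)
  | r1capN (i : ℕ)
  | r2P (i : ℕ)
  | r2N (i : ℕ)
  | r3P (i : ℕ)
  | r3N (i : ℕ)

/-- The left side. -/
def Mv.l : Mv → Word
  | .comm i j g h => [(i, g), (i + g.tgt + j, h)]
  | .zig i => [(i, .cup), (i + 1, .cap)]
  | .zag i => [(i + 1, .cup), (i, .cap)]
  | .capP i => [(i + 1, .pos), (i, .cap)]
  | .capN i => [(i + 1, .neg), (i, .cap)]
  | .cupP i => [(i, .cup), (i + 1, .pos)]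
  | .cupN i => [(i, .cup), (i + 1, .neg)]
  | .r1cupP i => [(i, .cup), (i, .pos)]
  | .r1cupN i => [(i, .cup), (i, .neg)]
  | .r1capP i => [(i, .pos), (i, .cap)]
  | .r1capN i => [(i, .neg), (i, .cap)]
  | .r2P i => [(i, .pos), (i, .neg)]
  | .r2N i => [(i, .neg), (i, .pos)]
  | .r3P i => [(i, .pos), (i + 1, .pos), (i, .pos)]
  | .r3N i => [(i, .neg), (i + 1, .neg), (i, .neg)]

/-- The right side. -/
def Mv.r : Mv → Word
  | .comm i j g h => [(i + g.src + j, h), (i, g)]
  | .zig _ => []
  | .zag _ => []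
  | .capP i => [(i, .neg), (i + 1, .cap)]
  | .capN i => [(i, .pos), (i + 1, .cap)]
  | .cupP i => [(i + 1, .cup), (i, .neg)]
  | .cupN i => [(i + 1, .cup), (i, .pos)]
  | .r1cupP i => [(i, .cup)]
  | .r1cupN i => [(i, .cup)]
  | .r1capP i => [(i, .cap)]
  | .r1capN i => [(i, .cap)]
  | .r2P _ => []
  | .r2N _ => []
  | .r3P i => [(i + 1, .pos), (i, .pos), (i + 1, .pos)]
  | .r3N i => [(i + 1, .neg), (i, .neg), (i + 1, .neg)]

theorem Mv.el : ∀ k : Mv, Elem k.l k.r
  | .comm i j g h => Elem.comm i j g h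
  | .zig i => Elem.zig i
  | .zag i => Elem.zag i
  | .capP i => Elem.capP i
  | .capN i => Elem.capN i
  | .cupP i => Elem.cupP i
  | .cupN i => Elem.cupN i
  | .r1cupP i => Elem.r1cupP i
  | .r1cupN i => Elem.r1cupN i
  | .r1capP i => Elem.r1capP i
  | .r1capN i => Elem.r1capN i
  | .r2P i => Elem.r2P i
  | .r2N i => Elem.r2N i
  | .r3P i => Elem.r3P i
  | .r3N i => Elem.r3N i

/-- The part which is replaced. -/
def inp : Bool → Mv → Word
  | false, k => k.l
  | true, k => k.r

/-- The new part. -/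
def outp : Bool → Mv → Word
  | false, k => k.r
  | true, k => k.l

theorem el_of (b : Bool) (k : Mv) : Elem (inp b k) (outp b k) ∨ Elem (outp b k) (inp b k) := by
  cases b
  · exact Or.inl k.el
  · exact Or.inr k.el

/-- One step. -/
def nxt (m n p : ℕ) (b : Bool) (k : Mv) (w : Word) : Option Word :=
  if w = w.take p ++ inp b k ++ w.drop (p + (inp b k).length) then
    if (lgt m w, lgt m (w.take p ++ outp b k ++ w.drop (p + (inp b k).length))) =
        (some n, some n) then
      some (w.take p ++ outp b k ++ w.drop (p + (inp b k).length))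
    else none
  else none

theorem nxt_iso {m n p : ℕ} {b : Bool} {k : Mv} {w w' : Word} (h : nxt m n p b k w = some w') :
    Iso m n w w' := by
  unfold nxt at h
  split_ifs at h with h1 h2
  have e : w' = w.take p ++ outp b k ++ w.drop (p + (inp b k).length) :=
    (Option.some.inj h).symm
  refine stq p (el_of b k) h1 e ?_
  rw [e]
  exact h2

/-- A list of steps. -/
def run (m n : ℕ) : List (ℕ × Bool × Mv) → Word → Option Word
  | [], w => some w
  | (p, b, k) :: l, w =>
    match nxt m n p b k w with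
    | none => none
    | some w' => run m n l w'

theorem run_iso {m n : ℕ} (l : List (ℕ × Bool × Mv)) : ∀ {w w' : Word}, run m n l w = some w' →
    Iso m n w w' := by
  induction l with
  | nil =>
    intro w w' h
    simp only [run, Option.some.injEq] at h
    rw [h]
    exact iso_refl _ _ _
  | cons s l ih =>
    intro w w' h
    obtain ⟨p, b, k⟩ := s
    simp only [run] at h
    cases h1 : nxt m n p b k w with
    | none => rw [h1] at h; simp at h
    | some w1 =>
      rw [h1] at h
      exact iso_trans (nxt_iso h1) (ih h)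

/-- The isotopy. -/
def steps : List (ℕ × Bool × Mv) :=
  [(9, false, .comm 1 0 .pos .cap), (8, true, .capN 2), (7, false, .comm 0 1 .pos .neg),
   (6, false, .comm 1 0 .pos .neg), (5, false, .r1cupN 3), (5, true, .comm 1 0 .pos .cup),
   (6, true, .comm 0 1 .pos .cup), (7, false, .zag 2), (5, true, .r3P 0),
   (4, true, .comm 0 0 .pos .cup), (7, false, .comm 0 0 .pos .cap), (5, true, .cupN 1),
   (6, false, .r1capN 2), (5, false, .zig 1), (11, false, .comm 7 0 .pos .cap),
   (10, true, .capN 8), (9, false, .comm 6 1 .pos .neg), (8, false, .comm 7 0 .pos .neg),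
   (7, false, .r1cupN 9), (7, true, .comm 7 0 .pos .cup), (8, true, .comm 6 1 .pos .cup),
   (9, false, .zag 8), (7, true, .r3P 6), (6, true, .comm 6 0 .pos .cup),
   (9, false, .comm 6 0 .pos .cap), (7, true, .cupN 7), (8, false, .r1capN 8),
   (7, false, .zig 7), (2, true, .comm 1 0 .cup .cup), (1, true, .comm 1 0 .cup .cup),
   (3, true, .comm 0 1 .pos .cup), (4, true, .comm 0 1 .pos .cup), (5, false, .comm 3 1 .cup .pos),
   (6, false, .comm 3 1 .cup .pos), (7, false, .r1cupP 3), (8, false, .comm 2 0 .pos .pos),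
   (7, false, .cupP 3), (11, true, .r2P 2), (9, false, .r3P 2),
   (8, false, .r2N 3), (10, false, .capN 1), (9, true, .comm 1 0 .pos .pos),
   (10, false, .capP 2), (7, true, .comm 2 0 .pos .cup), (8, true, .comm 1 1 .pos .cup),
   (9, true, .comm 2 0 .neg .cup), (10, false, .zag 3), (7, true, .r2N 1),
   (8, false, .r3P 1), (10, false, .r2P 2), (9, false, .capP 0),
   (8, true, .comm 0 0 .neg .pos), (6, true, .comm 1 1 .neg .pos), (5, true, .comm 1 1 .neg .pos),
   (7, true, .comm 0 2 .neg .pos), (6, true, .comm 0 2 .neg .pos), (9, false, .capP 1),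
   (8, true, .comm 1 1 .neg .pos), (7, true, .comm 1 1 .neg .pos), (9, true, .comm 2 0 .cap .pos),
   (8, true, .comm 2 0 .cap .pos), (7, true, .r2N 1), (5, true, .r3N 0),
   (4, false, .r2P 0), (6, true, .r2N 1), (4, true, .r3N 0),
   (3, false, .r2P 0), (2, true, .comm 1 0 .neg .cup), (1, false, .r1cupN 1),
   (2, true, .comm 0 1 .neg .cup), (1, true, .cupP 0), (3, true, .comm 1 0 .pos .cup),
   (4, true, .comm 1 0 .pos .cup), (5, true, .comm 1 0 .neg .cup), (6, false, .zag 2),
   (4, false, .r2P 1), (5, false, .capP 1), (3, true, .r2N 2),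
   (4, true, .r3P 1), (6, false, .r2P 1), (5, false, .r1capP 2),
   (4, true, .capN 1), (1, false, .cupP 0), (2, false, .comm 0 0 .neg .neg),
   (3, false, .comm 0 0 .neg .neg), (4, true, .capP 0), (5, false, .comm 0 0 .cap .cap),
   (4, true, .capN 1), (1, true, .r1cupN 1), (2, true, .r2P 2),
   (1, false, .cupP 1), (3, true, .r3N 1), (4, true, .r3N 1),
   (5, true, .r3N 1), (7, false, .r1capN 1), (6, false, .capN 1),
   (5, false, .r2N 1)]

theorem run_steps : run 1 1 steps T2 = some ((1, .cup) :: (shift 1 (TT 3) ++ [(0, .cap)])) := by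
  decide +kernel

/-- Packet LN-T2. -/
theorem t (hg : S_GOOD) (hi : S_ICL) : S_T2 := by
  have h1 : Iso 1 1 T2 ((1, .cup) :: (shift 1 (TT 3) ++ [(0, .cap)])) := run_iso _ run_steps
  have h2 : Iso 1 1 ((1, .cup) :: (shift 1 (TT 3) ++ [(0, .cap)]))
      ((1, .cup) :: (shift 2 (TT 3) ++ [(0, .cap)])) := by
    have h := iso_sh 1 0 hg.1.cup
    rw [sh_cons, sh_cons, sh_sh] at h
    exact iso_right (v := [(0, .cap)]) h (lgt_of rfl)
  have h3 : Iso 1 1 ((1, .cup) :: (shift 2 (TT 3) ++ [(0, .cap)]))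
      ((1, .cup) :: (0, .cap) :: TT 3) := by
    have h := hi 1 1 (TT 3) hg.1.legal 0 0 0 .cap
    have h' : Iso 3 1 (shift 2 (TT 3) ++ [(0, .cap)]) ((0, .cap) :: shift 0 (TT 3)) := h
    rw [sh_zero] at h'
    exact iso_left (u := [(1, .cup)]) h' (lgt_of rfl)
  have h4 : Iso 1 1 ((1, .cup) :: (0, .cap) :: TT 3) (TT 3) :=
    stq 0 (Or.inl (Elem.zag 0)) rfl rfl rfl
  exact iso_trans h1 (iso_trans h2 (iso_trans h3 h4))

end Pool.Agent.Helper75.LN.T2
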