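import Pool.Agent.Helper64.LN.GoalsB
import Pool.Agent.Helper64.LN.Lem

set_option autoImplicit false

/-! Project LN: packet REG (regions). -/

open Topology Filter Set Metric UpperHalfPlane
open scoped MatrixGroups

namespace Pool.Agent.Helper75.LN

open Pool.Agent.Helper64.LN

/-- The function `sf m` is continuous. -/
theorem continuous_sf (m : SL(2, ℝ)) : Continuous (sf m) := by
  have h1 : Continuous (fun z : ℍ => z.re) := UpperHalfPlane.continuous_re
  have h2 : Continuous (fun z : ℍ => z.im) := UpperHalfPlane.continuous_im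
  unfold sf
  fun_prop

/-- GOAL REG. -/
theorem goalREG.{v} (hPRE : GoalPRE.{v}) (hSEG : GoalSEG) : GoalREG.{v} := by
  intro X _ _ p P u C K γ ω hC z w hz hw
  have hpre := (hPRE X p P u C K γ ω hC).2
  have hm : ∀ g ∈ deck u, ∃ m : SL(2, ℝ), g * γ * g⁻¹ = mh m := by
    intro g hg
    have h1 : g * γ * g⁻¹ ∈ deck u := (deck u).mul_mem ((deck u).mul_mem hg hC.deck)
      ((deck u).inv_mem hg)
    obtain ⟨m, -, hm⟩ := mem_deck.1 h1
    exact ⟨m, hm⟩
  have hoff : ∀ x : ℍ, u x ∉ C '' sphere (0 : ℂ) 1 → ∀ g ∈ deck u, ∀ m : SL(2, ℝ),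
      g * γ * g⁻¹ = mh m → sf m x ≠ 0 := by
    intro x hx g hg m hgm h0
    refine hx ((hpre x).2 ⟨g, hg, ?_⟩)
    rw [hgm, ax_mh]
    exact h0
  constructor
  · intro h
    obtain ⟨σ, h0, h1, hσ⟩ := hSEG z w
    refine ⟨σ, h0, h1, fun t ht => ?_⟩
    obtain ⟨g, hg, hax⟩ := (hpre (σ t)).1 ht
    obtain ⟨m, hgm⟩ := hm g hg
    rw [hgm, ax_mh] at hax
    have hs := h g hg
    rw [hgm, Sz_mh] at hs
    have hzw : 0 < sf m z * sf m w :=
      lt_of_le_of_ne (not_lt.1 hs) (mul_ne_zero (hoff z hz g hg m hgm) (hoff w hw g hg m hgm)).symm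
    have := hσ m hzw t
    rw [hax, mul_zero] at this
    exact lt_irrefl _ this
  · rintro ⟨σ, h0, h1, hσ⟩ g hg hS
    obtain ⟨m, hgm⟩ := hm g hg
    rw [hgm, Sz_mh, ← h0, ← h1] at hS
    have hc : Continuous (fun t : unitInterval => sf m (σ t)) := (continuous_sf m).comp σ.continuous
    have hne : ∀ t, sf m (σ t) ≠ 0 := fun t => hoff (σ t) (hσ t) g hg m hgm
    have : (0 : ℝ) ∈ range (fun t : unitInterval => sf m (σ t)) := by
      rcases mul_neg_iff.1 hS with ⟨ha, hb⟩ | ⟨ha, hb⟩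
      · exact mem_range_of_exists_le_of_exists_ge hc ⟨1, hb.le⟩ ⟨0, ha.le⟩
      · exact mem_range_of_exists_le_of_exists_ge hc ⟨0, ha.le⟩ ⟨1, hb.le⟩
    obtain ⟨t, ht⟩ := this
    exact hne t ht

end Pool.Agent.Helper75.LN
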